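import Pool.Agent.H65.Der1

namespace Pool.Agent.Results.MP_8a4945_al.NotDiagram

open Pool.Agent.H65.Squier

/-- A finite semigroup presentation whose diagram group has a derived subgroup that is not a
diagram group. -/
theorem result : ∃ (R : Set (List (Fin 4) × List (Fin 4))) (w : Vtx R), R.Finite ∧
    (∀ r ∈ R, r.1 ≠ [] ∧ r.2 ≠ [] ∧ r.swap ∉ R) ∧
    ∀ (B : Type) (S : Set (List B × List B)), (∀ r ∈ S, r.1 ≠ [] ∧ r.2 ≠ []) → ∀ v : Vtx S,
      IsEmpty (commutator (DiagramGroup R w) ≃* DiagramGroup S v) := by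
  refine ⟨RD, ⟨[0] ++ [1], by simp⟩, by simp [RD], ?_, fun B S hS v => ⟨fun ψ => ?_⟩⟩
  · rintro _ (rfl | rfl | rfl | rfl | rfl | rfl | rfl) <;> simp [RD]
  obtain ⟨φ⟩ := loop_equiv hRD ⟨[0] ++ [1], by simp⟩
  obtain ⟨g, h1, h2, h3⟩ := exD
  have key : ∀ {G H : Type} [Group G] [Group H] (f : G ≃* H),
      (commutator G).map (f : G →* H) = commutator H := fun f => by
    rw [map_commutator_eq, MonoidHom.range_eq_top.2 f.surjective, commutator_def]
  let χ : commutator GD ≃* DiagramGroup S v :=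
    ((φ.subgroupMap _).trans (MulEquiv.subgroupCongr (key φ))).symm.trans ψ
  rw [← Subgroup.map_subtype_commutator] at h2 h3
  obtain ⟨x, h4, h5⟩ := h2
  obtain rfl : x = (⟨g, h1⟩ : commutator GD) ^ 3 := Subtype.ext (by simpa using h5)
  have h6 := ab_tf hS (g := χ ⟨g, h1⟩) three_ne_zero (map_pow χ _ 3 ▸ (key χ).le ⟨_, h4, rfl⟩)
  exact h3 ⟨_, (key χ.symm).le ⟨_, h6, rfl⟩, by simp⟩

end Pool.Agent.Results.MP_8a4945_al.NotDiagram
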